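import Mathlib
import Pool.Agent.Q158.NagD

/-! # A quasiconformal map which raises the Nagata dimension to `n`

The domain is the half-slab `Ω = {1 < p 0, 0 < p 1 < 1}`, the map rolls it up along an Archimedean
spiral: `f p = ((√x + t) cos √x, -(√x + t) sin √x, p 2, …, p (n-1))` for `x = p 0`, `t = p 1`. It is
Lipschitz and its inverse is locally Lipschitz with uniform constants. The image of the hyperplane
piece `{p 1 = 1 / 2}` is `7`-dense in an orthant, so Kuhn's cubical form of Sperner's lemma shows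
that its Nagata dimension is `n`. -/

set_option autoImplicit false

namespace Pool.Agent.Results.MP_a3803f_an.NagataRaised

open Set

/-- the Nagata dimension of `X` is at most `d`: there is `c > 0` such that for every `s > 0` the
set `X` has a cover by subsets of diameter at most `c * s` such that every subset of `X` of diameter
at most `s` meets at most `d + 1` members of the cover. -/
def NagataDimLE {n : ℕ} (X : Set (EuclideanSpace ℝ (Fin n))) (d : ℕ) : Prop :=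
  ∃ c : ℝ, 0 < c ∧ ∀ s : ℝ, 0 < s → ∃ 𝒰 : Set (Set (EuclideanSpace ℝ (Fin n))), X ⊆ ⋃₀ 𝒰 ∧
    (∀ U ∈ 𝒰, U ⊆ X ∧ ∀ x ∈ U, ∀ y ∈ U, dist x y ≤ c * s) ∧
    ∀ T ⊆ X, (∀ x ∈ T, ∀ y ∈ T, dist x y ≤ s) →
      {U : Set (EuclideanSpace ℝ (Fin n)) | U ∈ 𝒰 ∧ (U ∩ T).Nonempty}.encard ≤ d + 1

/-- the Nagata dimension: the least such `d`, and `∞` if there is none. -/
noncomputable def nagataDim {n : ℕ} (X : Set (EuclideanSpace ℝ (Fin n))) : ℕ∞ :=
  ⨅ (d : ℕ) (_ : NagataDimLE X d), (d : ℕ∞)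

/-- `f` maps `Ω` homeomorphically onto `Ω'`. -/
def HomeoOnto {n : ℕ} (f : EuclideanSpace ℝ (Fin n) → EuclideanSpace ℝ (Fin n))
    (Ω Ω' : Set (EuclideanSpace ℝ (Fin n))) : Prop :=
  ContinuousOn f Ω ∧ MapsTo f Ω Ω' ∧
    ∃ g : EuclideanSpace ℝ (Fin n) → EuclideanSpace ℝ (Fin n), ContinuousOn g Ω' ∧
      MapsTo g Ω' Ω ∧ (∀ p ∈ Ω, g (f p) = p) ∧ ∀ w ∈ Ω', f (g w) = w

/-- Analytic form of quasiconformality, for continuously differentiable maps: `f` is `C^1` on `Ω`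
and `|Df(p)|^n ≤ K det Df(p)` for every `p ∈ Ω`. -/
def AnalyticQC {n : ℕ} (f : EuclideanSpace ℝ (Fin n) → EuclideanSpace ℝ (Fin n))
    (Ω : Set (EuclideanSpace ℝ (Fin n))) : Prop :=
  ContDiffOn ℝ 1 f Ω ∧ ∃ K : ℝ, 1 ≤ K ∧ ∀ p ∈ Ω, ‖fderiv ℝ f p‖ ^ n ≤ K * (fderiv ℝ f p).det

/-- Metric form of quasiconformality: there is `H` such that for each `p ∈ Ω` and all small `r`,
`max_{|q-p|=r} |f(q)-f(p)| ≤ H * min_{|q-p|=r} |f(q)-f(p)|`. -/
def MetricQC {n : ℕ} (f : EuclideanSpace ℝ (Fin n) → EuclideanSpace ℝ (Fin n))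
    (Ω : Set (EuclideanSpace ℝ (Fin n))) : Prop :=
  ∃ H : ℝ, ∀ p ∈ Ω, ∃ r₀ > 0, Metric.ball p r₀ ⊆ Ω ∧ ∀ r : ℝ, 0 < r → r < r₀ →
    ∀ q q' : EuclideanSpace ℝ (Fin n), dist q p = r → dist q' p = r →
      dist (f q) (f p) ≤ H * dist (f q') (f p)

/-- For every `n ≥ 2` there are domains `Ω`, `Ω'` in `ℝ^n`, a quasiconformal map `f` of `Ω` onto
`Ω'` and a set `E ⊆ Ω` whose Nagata dimension is at most `n - 1` while that of `f(E)` is `n`. -/
theorem result (n : ℕ) (hn : 2 ≤ n) :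
    ∃ (Ω Ω' : Set (EuclideanSpace ℝ (Fin n)))
      (f : EuclideanSpace ℝ (Fin n) → EuclideanSpace ℝ (Fin n))
      (E : Set (EuclideanSpace ℝ (Fin n))),
      IsOpen Ω ∧ IsConnected Ω ∧ IsOpen Ω' ∧ IsConnected Ω' ∧ HomeoOnto f Ω Ω' ∧
      AnalyticQC f Ω ∧ MetricQC f Ω ∧ E ⊆ Ω ∧
      nagataDim E ≤ ((n - 1 : ℕ) : ℕ∞) ∧ nagataDim (f '' E) = (n : ℕ∞) := by
  obtain ⟨k, rfl⟩ := Nat.exists_eq_add_of_le' hn
  obtain ⟨g, hg1, hg2, hg3⟩ := Pool.Agent.Q158.Nag.inverse k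
  have hcon : IsConnected (Pool.Agent.Q158.Nag.Om k) :=
    ⟨Pool.Agent.Q158.Nag.Om_nonempty k, (Pool.Agent.Q158.Nag.Om_convex k).isPreconnected⟩
  refine ⟨Pool.Agent.Q158.Nag.Om k, Pool.Agent.Q158.Nag.f '' Pool.Agent.Q158.Nag.Om k,
    Pool.Agent.Q158.Nag.f, Pool.Agent.Q158.Nag.Es k, Pool.Agent.Q158.Nag.Om_open k, hcon,
    Pool.Agent.Q158.Nag.image_open k, hcon.image _ Pool.Agent.Q158.Nag.f_cont.continuousOn,
    ⟨Pool.Agent.Q158.Nag.f_cont.continuousOn, mapsTo_image _ _, g, hg3,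
      fun w hw => (hg2 w hw).1, hg1, fun w hw => (hg2 w hw).2⟩,
    ⟨Pool.Agent.Q158.Nag.contDiffOn_f, 2 * 5 ^ (k + 2), ?_, fun p hp =>
      Pool.Agent.Q158.Nag.analytic_qc hp⟩,
    ⟨40, fun p hp => ?_⟩, fun p hp => hp.1, ?_, ?_⟩
  · have : (1 : ℝ) ≤ 5 ^ (k + 2) := one_le_pow₀ (by norm_num)
    linarith
  · obtain ⟨r₀, hr₀, h1, h2⟩ := Pool.Agent.Q158.Nag.distortion hp
    exact ⟨r₀, hr₀, h1, fun r _ hr q q' hq hq' => h2 q q' (by rw [hq]; exact hr) (by rw [hq, hq'])⟩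
  · exact iInf₂_le (k + 1) (Pool.Agent.Q158.Nag.E_le k)
  · refine le_antisymm (iInf₂_le (k + 2) (Pool.Agent.Q158.Nag.nagata_full _)) ?_
    refine le_iInf₂ fun d hd => ?_
    by_contra hcon'
    push Not at hcon'
    have h1 : d < k + 2 := by exact_mod_cast hcon'
    exact Pool.Agent.Q158.Nag.fE_not k
      (Pool.Agent.Q158.Nag.NagataLE.mono (d' := k + 1) hd (by omega))

end Pool.Agent.Results.MP_a3803f_an.NagataRaised
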